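import Pool.Agent.Helper95.PW.Stmts

/-! Project PW, row HA1: Hardy's inequality in the variable of one electron. -/

set_option autoImplicit false

namespace Pool.Agent.Helper67.PW

open MeasureTheory Filter Topology Pool.Agent.Helper95.PW

theorem ibp {n : ℕ} (k : Fin n) (i : Fin 3) (v g : Cf n → ℝ) (hv : ContDiff ℝ (⊤ : ℕ∞) v)
    (hc : HasCompactSupport v) (hg : ContDiff ℝ (⊤ : ℕ∞) g) :
    ∫ x, (v x * v x) * dv k i g x = -∫ x, (2 * v x * dv k i v x) * g x := by
  have hvd : Differentiable ℝ v := hv.differentiable (by simp)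
  have hgd : Differentiable ℝ g := hg.differentiable (by simp)
  have hcv : Continuous (fun x => dv k i v x) :=
    (hv.continuous_fderiv (by simp)).clm_apply continuous_const
  have hcg : Continuous (fun x => dv k i g x) :=
    (hg.continuous_fderiv (by simp)).clm_apply continuous_const
  have hd : ∀ x, fderiv ℝ (fun x => v x * v x) x (Pi.single k (Pi.single i 1)) =
      2 * v x * dv k i v x := by
    intro x
    rw [fderiv_fun_mul (hvd x) (hvd x)]
    show v x * fderiv ℝ v x _ + v x * fderiv ℝ v x _ = 2 * v x * fderiv ℝ v x _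
    ring
  have h1 := integral_mul_fderiv_eq_neg_fderiv_mul_of_integrable (μ := volume)
    (f := fun x => v x * v x) (g := g) (v := Pi.single k (Pi.single i 1))
    (by
      simp only [hd]
      apply Continuous.integrable_of_hasCompactSupport
      · exact ((continuous_const.mul hv.continuous).mul hcv).mul hg.continuous
      · exact ((hc.mul_left (f := fun _ => (2 : ℝ))).mul_right).mul_right)
    (by
      apply Continuous.integrable_of_hasCompactSupport
      · exact (hv.continuous.mul hv.continuous).mul hcg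
      · exact (hc.mul_right).mul_right)
    (by
      apply Continuous.integrable_of_hasCompactSupport
      · exact (hv.continuous.mul hv.continuous).mul hg.continuous
      · exact (hc.mul_right).mul_right)
    (fun x _ => (hvd x).mul (hvd x)) (fun x _ => hgd x)
  simp only [hd] at h1
  exact h1

/-- the square of the length -/
noncomputable def rh {n : ℕ} (k : Fin n) (x : Cf n) : ℝ := x k 0 ^ 2 + x k 1 ^ 2 + x k 2 ^ 2

/-- the field -/
noncomputable def fl {n : ℕ} (k : Fin n) (i : Fin 3) (e : ℝ) (x : Cf n) : ℝ :=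
  x k i / (rh k x + e)

theorem rh_nonneg {n : ℕ} (k : Fin n) (x : Cf n) : 0 ≤ rh k x := by
  unfold rh
  positivity

theorem contDiff_rh {n : ℕ} (k : Fin n) : ContDiff ℝ (⊤ : ℕ∞) (fun x : Cf n => rh k x) := by
  unfold rh
  fun_prop

theorem contDiff_fl {n : ℕ} (k : Fin n) (i : Fin 3) (e : ℝ) (he : 0 < e) :
    ContDiff ℝ (⊤ : ℕ∞) (fl k i e : Cf n → ℝ) := by
  unfold fl
  apply ContDiff.div
  · fun_prop
  · exact (contDiff_rh k).add contDiff_const
  · intro x
    have := rh_nonneg k x
    positivity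

theorem dv_fl {n : ℕ} (k : Fin n) (i : Fin 3) (e : ℝ) (he : 0 < e) (x : Cf n) :
    dv k i (fl k i e) x = ((rh k x + e) - 2 * x k i ^ 2) / (rh k x + e) ^ 2 := by
  have hR : rh k x + e ≠ 0 := by
    have := rh_nonneg k x
    positivity
  have h1 : HasDerivAt (fun t : ℝ => fl k i e (x + t • (Pi.single k (Pi.single i 1) : Cf n)))
      (dv k i (fl k i e) x) 0 :=
    (((contDiff_fl k i e he).differentiable (by simp)) x).hasFDerivAt.hasLineDerivAt _
  have hco : ∀ (j : Fin 3) (t : ℝ),
      (x + t • (Pi.single k (Pi.single i 1) : Cf n)) k j = x k j + t * (if j = i then 1 else 0) := by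
    intro j t
    simp [Pi.single_apply]
  have hj : ∀ j : Fin 3, HasDerivAt
      (fun t : ℝ => x k j + t * (if j = i then 1 else 0)) (if j = i then 1 else 0) 0 := by
    intro j
    have h := ((hasDerivAt_id (0 : ℝ)).mul_const (if j = i then (1 : ℝ) else 0)).const_add (x k j)
    rw [one_mul] at h
    exact h
  have hfun : (fun t : ℝ => fl k i e (x + t • (Pi.single k (Pi.single i 1) : Cf n))) =
      fun t : ℝ => (x k i + t * (if i = i then 1 else 0)) /
        ((x k 0 + t * (if 0 = i then 1 else 0)) ^ 2 + (x k 1 + t * (if 1 = i then 1 else 0)) ^ 2 +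
          (x k 2 + t * (if 2 = i then 1 else 0)) ^ 2 + e) := by
    funext t
    unfold fl rh
    rw [hco, hco, hco, hco]
  have h2 : HasDerivAt (fun t : ℝ => fl k i e (x + t • (Pi.single k (Pi.single i 1) : Cf n)))
      (((rh k x + e) - 2 * x k i ^ 2) / (rh k x + e) ^ 2) 0 := by
    rw [hfun]
    have h3 : HasDerivAt (fun t : ℝ =>
        (x k 0 + t * (if 0 = i then 1 else 0)) ^ 2 + (x k 1 + t * (if 1 = i then 1 else 0)) ^ 2 +
          (x k 2 + t * (if 2 = i then 1 else 0)) ^ 2 + e)
        (2 * x k 0 * (if 0 = i then 1 else 0) + 2 * x k 1 * (if 1 = i then 1 else 0) +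
          2 * x k 2 * (if 2 = i then 1 else 0)) 0 := by
      have h4 := ((((hj 0).fun_pow 2).fun_add ((hj 1).fun_pow 2)).fun_add
        ((hj 2).fun_pow 2)).add_const e
      refine h4.congr_deriv ?_
      simp only [zero_mul, add_zero]
      norm_num
    have h4 := (hj i).fun_div h3 (by
      simp only [zero_mul, add_zero]
      exact hR)
    refine h4.congr_deriv ?_
    simp only [zero_mul, add_zero, if_true]
    have h5 : x k 0 ^ 2 + x k 1 ^ 2 + x k 2 ^ 2 = rh k x := rfl
    rw [h5]
    congr 1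
    fin_cases i <;> simp <;> ring
  exact h1.unique h2

theorem hardy_eps {n : ℕ} (k : Fin n) (v : Cf n → ℝ) (hv : ContDiff ℝ (⊤ : ℕ∞) v)
    (hc : HasCompactSupport v) (e : ℝ) (he : 0 < e) :
    Integrable (fun x : Cf n => v x ^ 2 / (rh k x + e)) ∧
    ∫ x, v x ^ 2 / (rh k x + e) ≤ 4 * ∫ x, ∑ i, dv k i v x ^ 2 := by
  have hR : ∀ x : Cf n, 0 < rh k x + e := by
    intro x
    have := rh_nonneg k x
    positivity
  have hcv : ∀ i, Continuous (fun x => dv k i v x) := fun i =>
    (hv.continuous_fderiv (by simp)).clm_apply continuous_const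
  have hcf : ∀ i, Continuous (fun x => dv k i (fl k i e) x) := fun i =>
    ((contDiff_fl k i e he).continuous_fderiv (by simp)).clm_apply continuous_const
  have hcdv : ∀ i, HasCompactSupport (fun x => dv k i v x) := by
    intro i
    have h1 := hc.fderiv (𝕜 := ℝ)
    exact h1.comp_left (g := fun L : Cf n →L[ℝ] ℝ => L (Pi.single k (Pi.single i 1))) rfl
  have hint0 : Integrable (fun x : Cf n => v x ^ 2 / (rh k x + e)) := by
    apply Continuous.integrable_of_hasCompactSupport
    · apply Continuous.div (hv.continuous.pow 2)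
        ((contDiff_rh k).continuous.add continuous_const)
      intro x
      exact (hR x).ne'
    · have h1 : (fun x : Cf n => v x ^ 2 / (rh k x + e)) =
          fun x => v x * (v x / (rh k x + e)) := by
        funext x
        ring
      rw [h1]
      exact hc.mul_right
  have hint1 : ∀ i, Integrable (fun x => (v x * v x) * dv k i (fl k i e) x) := by
    intro i
    apply Continuous.integrable_of_hasCompactSupport
    · exact (hv.continuous.mul hv.continuous).mul (hcf i)
    · exact (hc.mul_right).mul_right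
  have hint2 : ∀ i, Integrable (fun x => (2 * v x * dv k i v x) * fl k i e x) := by
    intro i
    apply Continuous.integrable_of_hasCompactSupport
    · exact ((continuous_const.mul hv.continuous).mul (hcv i)).mul
        (contDiff_fl k i e he).continuous
    · exact ((hc.mul_left (f := fun _ => (2 : ℝ))).mul_right).mul_right
  have hint3 : Integrable (fun x => ∑ i, dv k i v x ^ 2) := by
    apply integrable_finsetSum
    intro i _
    apply Continuous.integrable_of_hasCompactSupport
    · exact (hcv i).pow 2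
    · have h1 : (fun x => dv k i v x ^ 2) = fun x => dv k i v x * dv k i v x := by
        funext x
        ring
      rw [h1]
      exact (hcdv i).mul_right
  refine ⟨hint0, ?_⟩
  have hadd : ∀ i, Integrable (fun x => (v x * v x) * dv k i (fl k i e) x +
      (2 * v x * dv k i v x) * fl k i e x) := fun i => (hint1 i).add (hint2 i)
  have hS : ∫ x, ∑ i, ((v x * v x) * dv k i (fl k i e) x +
      (2 * v x * dv k i v x) * fl k i e x) = 0 := by
    rw [integral_finsetSum _ (fun i _ => hadd i)]
    apply Finset.sum_eq_zero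
    intro i _
    rw [integral_add (hint1 i) (hint2 i), ibp k i v (fl k i e) hv hc (contDiff_fl k i e he)]
    ring
  have hSi : Integrable (fun x => ∑ i, ((v x * v x) * dv k i (fl k i e) x +
      (2 * v x * dv k i v x) * fl k i e x)) :=
    integrable_finsetSum _ (fun i _ => hadd i)
  have hpt : ∀ x, (1 / 2) * (v x ^ 2 / (rh k x + e)) ≤
      (∑ i, ((v x * v x) * dv k i (fl k i e) x + (2 * v x * dv k i v x) * fl k i e x)) +
        2 * ∑ i, dv k i v x ^ 2 := by
    intro x
    simp only [dv_fl k _ e he, fl, Fin.sum_univ_three]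
    have hr : rh k x = x k 0 ^ 2 + x k 1 ^ 2 + x k 2 ^ 2 := rfl
    have hRx := hR x
    have hle : rh k x ≤ rh k x + e := by linarith
    generalize rh k x + e = R at hRx hle ⊢
    generalize dv k 0 v x = d0
    generalize dv k 1 v x = d1
    generalize dv k 2 v x = d2
    generalize x k 0 = a0 at hr ⊢
    generalize x k 1 = a1 at hr ⊢
    generalize x k 2 = a2 at hr ⊢
    generalize v x = w
    rw [hr] at hle
    have hcs : (a0 * d0 + a1 * d1 + a2 * d2) ^ 2 ≤ R * (d0 ^ 2 + d1 ^ 2 + d2 ^ 2) := by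
      have h1 : (a0 * d0 + a1 * d1 + a2 * d2) ^ 2 ≤
          (a0 ^ 2 + a1 ^ 2 + a2 ^ 2) * (d0 ^ 2 + d1 ^ 2 + d2 ^ 2) := by
        nlinarith [sq_nonneg (a0 * d1 - a1 * d0), sq_nonneg (a0 * d2 - a2 * d0),
          sq_nonneg (a1 * d2 - a2 * d1)]
      have h2 : 0 ≤ d0 ^ 2 + d1 ^ 2 + d2 ^ 2 := by positivity
      exact h1.trans (mul_le_mul_of_nonneg_right hle h2)
    have key : 0 ≤ (w ^ 2 * (3 * R - 2 * (a0 ^ 2 + a1 ^ 2 + a2 ^ 2)) +
        2 * w * (a0 * d0 + a1 * d1 + a2 * d2) * R + 2 * (d0 ^ 2 + d1 ^ 2 + d2 ^ 2) * R ^ 2 -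
        1 / 2 * w ^ 2 * R) / R ^ 2 := by
      apply div_nonneg _ (by positivity)
      have h1 : 0 ≤ w ^ 2 * (R - (a0 ^ 2 + a1 ^ 2 + a2 ^ 2)) :=
        mul_nonneg (sq_nonneg _) (by linarith)
      have h2 : 0 ≤ R * (w + 2 * (a0 * d0 + a1 * d1 + a2 * d2)) ^ 2 :=
        mul_nonneg hRx.le (sq_nonneg _)
      have h3 : 0 ≤ R * (R * (d0 ^ 2 + d1 ^ 2 + d2 ^ 2) - (a0 * d0 + a1 * d1 + a2 * d2) ^ 2) :=
        mul_nonneg hRx.le (by linarith)
      nlinarith [h1, h2, h3]
    have heq : (w * w * ((R - 2 * a0 ^ 2) / R ^ 2) + 2 * w * d0 * (a0 / R) +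
        (w * w * ((R - 2 * a1 ^ 2) / R ^ 2) + 2 * w * d1 * (a1 / R)) +
        (w * w * ((R - 2 * a2 ^ 2) / R ^ 2) + 2 * w * d2 * (a2 / R))) +
        2 * (d0 ^ 2 + d1 ^ 2 + d2 ^ 2) - 1 / 2 * (w ^ 2 / R) =
        (w ^ 2 * (3 * R - 2 * (a0 ^ 2 + a1 ^ 2 + a2 ^ 2)) +
        2 * w * (a0 * d0 + a1 * d1 + a2 * d2) * R + 2 * (d0 ^ 2 + d1 ^ 2 + d2 ^ 2) * R ^ 2 -
        1 / 2 * w ^ 2 * R) / R ^ 2 := by
      field_simp
      ring
    rw [← heq] at key
    linarith
  have hmono := integral_mono (hint0.const_mul (1 / 2)) (hSi.add (hint3.const_mul 2)) hpt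
  simp only [Pi.add_apply] at hmono
  rw [integral_const_mul, integral_add hSi (hint3.const_mul 2), hS, integral_const_mul] at hmono
  linarith

theorem nr_sq {n : ℕ} (k : Fin n) (x : Cf n) : nr (x k) ^ 2 = rh k x :=
  Real.sq_sqrt (rh_nonneg k x)

end Pool.Agent.Helper67.PW

namespace Pool.Agent.Helper95.PW

open MeasureTheory Filter Topology Pool.Agent.Helper67.PW

theorem st_HA1 : ST_HA1 := by
  intro n k v hv hc
  have hnn : ∀ x : Cf n, 0 ≤ v x ^ 2 / nr (x k) ^ 2 := fun x => by positivity
  have hmeas : Measurable (fun x : Cf n => v x ^ 2 / nr (x k) ^ 2) := by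
    simp only [nr_sq]
    exact (hv.continuous.measurable.pow_const 2).div (contDiff_rh k).continuous.measurable
  have hK : 0 ≤ 4 * ∫ x, ∑ i, dv k i v x ^ 2 := by
    have : 0 ≤ ∫ x, ∑ i, dv k i v x ^ 2 :=
      integral_nonneg (fun x => Finset.sum_nonneg (fun i _ => sq_nonneg _))
    linarith
  have hlin : ∫⁻ x, ENNReal.ofReal (v x ^ 2 / nr (x k) ^ 2) ≤
      ENNReal.ofReal (4 * ∫ x, ∑ i, dv k i v x ^ 2) := by
    have h1 : ∀ j : ℕ, ∫⁻ x, ENNReal.ofReal (v x ^ 2 / (rh k x + 1 / ((j : ℝ) + 1))) ≤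
        ENNReal.ofReal (4 * ∫ x, ∑ i, dv k i v x ^ 2) := by
      intro j
      have he : 0 < 1 / ((j : ℝ) + 1) := by positivity
      obtain ⟨h2, h3⟩ := hardy_eps k v hv hc (1 / ((j : ℝ) + 1)) he
      rw [← ofReal_integral_eq_lintegral_ofReal h2
        (ae_of_all _ (fun x => by
          have := rh_nonneg k x
          show 0 ≤ v x ^ 2 / (rh k x + 1 / ((j : ℝ) + 1))
          positivity))]
      exact ENNReal.ofReal_le_ofReal h3
    have h4 : ∀ x : Cf n, ENNReal.ofReal (v x ^ 2 / nr (x k) ^ 2) ≤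
        liminf (fun j : ℕ => ENNReal.ofReal (v x ^ 2 / (rh k x + 1 / ((j : ℝ) + 1)))) atTop := by
      intro x
      rw [nr_sq]
      rcases (rh_nonneg k x).eq_or_lt with h0 | h0
      · rw [← h0, div_zero, ENNReal.ofReal_zero]
        exact bot_le
      · apply le_of_eq
        symm
        apply Tendsto.liminf_eq
        apply ENNReal.tendsto_ofReal
        apply Tendsto.div tendsto_const_nhds _ h0.ne'
        have h5 := (tendsto_one_div_add_atTop_nhds_zero_nat (𝕜 := ℝ)).const_add (rh k x)
        rw [add_zero] at h5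
        exact h5
    calc ∫⁻ x, ENNReal.ofReal (v x ^ 2 / nr (x k) ^ 2)
        ≤ ∫⁻ x, liminf (fun j : ℕ =>
            ENNReal.ofReal (v x ^ 2 / (rh k x + 1 / ((j : ℝ) + 1)))) atTop :=
          lintegral_mono h4
      _ ≤ liminf (fun j : ℕ => ∫⁻ x,
            ENNReal.ofReal (v x ^ 2 / (rh k x + 1 / ((j : ℝ) + 1)))) atTop := by
          apply lintegral_liminf_le
          intro j
          apply ENNReal.measurable_ofReal.comp
          exact (hv.continuous.measurable.pow_const 2).div
            ((contDiff_rh k).continuous.measurable.add_const _)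
      _ ≤ ENNReal.ofReal (4 * ∫ x, ∑ i, dv k i v x ^ 2) := by
          apply liminf_le_of_le
          · isBoundedDefault
          · intro b hb
            obtain ⟨j, hj⟩ := hb.exists
            exact hj.trans (h1 j)
  have hint : Integrable (fun x : Cf n => v x ^ 2 / nr (x k) ^ 2) := by
    refine ⟨hmeas.aestronglyMeasurable, ?_⟩
    rw [hasFiniteIntegral_iff_ofReal (ae_of_all _ hnn)]
    exact lt_of_le_of_lt hlin ENNReal.ofReal_lt_top
  refine ⟨hint, ?_⟩
  rw [integral_eq_lintegral_of_nonneg_ae (ae_of_all _ hnn) hmeas.aestronglyMeasurable]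
  exact ENNReal.toReal_le_of_le_ofReal hK hlin

end Pool.Agent.Helper95.PW
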